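import Pool.Agent.Y404.SE.Subst

set_option autoImplicit false
set_option linter.unusedSimpArgs false
set_option linter.unusedVariables false

/-! # The graphs `G_r`

Take vertices `u_i` (`i < r`), `p_k` (`k ≤ r`) and `z_{i,j}` (`i < r`, `j` one of two values), and the
sets `v = {u_0, ..., u_{r-1}}`, `{u_i}`, `{p_k}`, `{z_{i,j}, u_i}` and `{z_{i,j}, p_k}`, where `k ≠ 0`
if `j` is the first value and `k ≠ r` if `j` is the second value. The vertices of `G_r` are these
sets; two of them are adjacent if they are disjoint. -/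

namespace Pool.Agent.Y404.SE

open Finset

/-- the vertices of `G_r` -/
inductive E (r : ℕ) : Type
  | v : E r
  | pu : Fin r → E r
  | pp : Fin (r + 1) → E r
  | zu : Fin r → Bool → E r
  | zp : Fin r → Bool → Fin r → E r
  deriving DecidableEq

/-- the points -/
inductive X (r : ℕ) : Type
  | u : Fin r → X r
  | p : Fin (r + 1) → X r
  | z : Fin r → Bool → X r

namespace E

variable {r : ℕ}

/-- sum decomposition -/
def toSum : E r ≃ Unit ⊕ Fin r ⊕ Fin (r + 1) ⊕ (Fin r × Bool) ⊕ (Fin r × Bool × Fin r) where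
  toFun
    | v => Sum.inl ()
    | pu i => Sum.inr (Sum.inl i)
    | pp k => Sum.inr (Sum.inr (Sum.inl k))
    | zu i j => Sum.inr (Sum.inr (Sum.inr (Sum.inl (i, j))))
    | zp i j k => Sum.inr (Sum.inr (Sum.inr (Sum.inr (i, j, k))))
  invFun
    | Sum.inl _ => v
    | Sum.inr (Sum.inl i) => pu i
    | Sum.inr (Sum.inr (Sum.inl k)) => pp k
    | Sum.inr (Sum.inr (Sum.inr (Sum.inl (i, j)))) => zu i j
    | Sum.inr (Sum.inr (Sum.inr (Sum.inr (i, j, k)))) => zp i j k
  left_inv := by rintro (_ | _ | _ | _ | _) <;> rfl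
  right_inv := by rintro (_ | _ | _ | _ | _) <;> rfl

instance : Fintype (E r) := Fintype.ofEquiv _ toSum.symm

theorem card : Fintype.card (E r) = 2 * (r + 1) ^ 2 := by
  rw [Fintype.card_congr toSum]
  simp only [Fintype.card_sum, Fintype.card_unique, Fintype.card_fin, Fintype.card_prod,
    Fintype.card_bool]
  ring

theorem sum_E (g : E r → ℝ) : ∑ e, g e = g v + (∑ i, g (pu i) + (∑ k, g (pp k) +
    (∑ i, (g (zu i true) + g (zu i false)) +
      ∑ i, (∑ k, g (zp i true k) + ∑ k, g (zp i false k))))) := by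
  rw [← Equiv.sum_comp toSum.symm]
  simp only [Fintype.sum_sum_type, Fintype.sum_prod_type, Fintype.sum_bool, Finset.univ_unique,
    Finset.sum_singleton]
  rfl

end E

variable {r : ℕ}

/-- the point `p_k` of `{z_{i,j}, p_k}` -/
def att (j : Bool) (k : Fin r) : Fin (r + 1) := if j then k.castSucc else k.succ

/-- incidence -/
def inc : E r → X r → Bool
  | E.v, X.u _ => true
  | E.pu i, X.u i' => i = i'
  | E.pp k, X.p k' => k = k'
  | E.zu i _, X.u i' => i = i'
  | E.zu i j, X.z i' j' => i = i' ∧ j = j'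
  | E.zp _ j k, X.p k' => att j k = k'
  | E.zp i j _, X.z i' j' => i = i' ∧ j = j'
  | _, _ => false

/-- the graph `G_r` -/
def Gr (r : ℕ) : SimpleGraph (E r) where
  Adj e f := e ≠ f ∧ ∀ x, ¬ (inc e x = true ∧ inc f x = true)
  symm := ⟨fun _ _ h => ⟨h.1.symm, fun x hx => h.2 x ⟨hx.2, hx.1⟩⟩⟩
  loopless := ⟨fun _ h => h.1 rfl⟩

/-- the sets containing a point -/
def star (x : X r) : Finset (E r) := univ.filter fun e => inc e x = true

theorem mem_star {x : X r} {e : E r} : e ∈ star x ↔ inc e x = true := by simp [star]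

theorem inc_zu (i : Fin r) (j : Bool) (y : X r) :
    inc (E.zu i j) y = true ↔ y = X.u i ∨ y = X.z i j := by
  rcases y with i' | k' | ⟨i', j'⟩
  · simp only [inc, decide_eq_true_eq, X.u.injEq, reduceCtorEq, or_false]
    exact eq_comm
  · simp [inc]
  · simp only [inc, decide_eq_true_eq, X.z.injEq, reduceCtorEq, false_or]
    exact ⟨fun h => ⟨h.1.symm, h.2.symm⟩, fun h => ⟨h.1.symm, h.2.symm⟩⟩

theorem inc_zp (i : Fin r) (j : Bool) (k : Fin r) (y : X r) :
    inc (E.zp i j k) y = true ↔ y = X.p (att j k) ∨ y = X.z i j := by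
  rcases y with i' | k' | ⟨i', j'⟩
  · simp [inc]
  · simp only [inc, decide_eq_true_eq, X.p.injEq, reduceCtorEq, or_false]
    exact eq_comm
  · simp only [inc, decide_eq_true_eq, X.z.injEq, reduceCtorEq, false_or]
    exact ⟨fun h => ⟨h.1.symm, h.2.symm⟩, fun h => ⟨h.1.symm, h.2.symm⟩⟩

theorem star_stable (x : X r) : ∀ e ∈ star x, ∀ f ∈ star x, ¬ (Gr r).Adj e f := by
  intro e he f hf h
  exact h.2 x ⟨mem_star.1 he, mem_star.1 hf⟩

theorem star_maxStable (hr : 0 < r) (x : X r) : MaxStable (Gr r) (star x) := by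
  rw [maxStable_iff]
  refine ⟨star_stable x, fun e he => ?_⟩
  rw [mem_star] at he
  have k0 : Fin r := ⟨0, hr⟩
  rcases x with i | k | ⟨i, j⟩
  · refine ⟨E.pu i, by simp [mem_star, inc], ?_, ?_⟩
    · rintro rfl
      simp [inc] at he
    · rintro y ⟨h1, h2⟩
      rcases y with i' | k' | ⟨i', j'⟩
      · simp only [inc, decide_eq_true_eq] at h2
        subst h2
        exact he h1
      · simp [inc] at h2
      · simp [inc] at h2
  · refine ⟨E.pp k, by simp [mem_star, inc], ?_, ?_⟩
    · rintro rfl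
      simp [inc] at he
    · rintro y ⟨h1, h2⟩
      rcases y with i' | k' | ⟨i', j'⟩
      · simp [inc] at h2
      · simp only [inc, decide_eq_true_eq] at h2
        subst h2
        exact he h1
      · simp [inc] at h2
  · have hA := fun y => inc_zu i j y
    have hB := fun y => inc_zp i j k0 y
    by_cases h1 : inc e (X.u i) = true
    · refine ⟨E.zp i j k0, by simp [mem_star, inc], ?_, ?_⟩
      · rintro rfl
        simp [inc] at h1
      · rintro y ⟨h2, h3⟩
        rw [hB] at h3
        rcases h3 with rfl | rfl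
        · rcases e with _ | _ | _ | _ | _ <;> simp [inc] at h1 h2
        · exact he h2
    · refine ⟨E.zu i j, by simp [mem_star, inc], ?_, ?_⟩
      · rintro rfl
        simp [inc] at h1
      · rintro y ⟨h2, h3⟩
        rw [hA] at h3
        rcases h3 with rfl | rfl
        · exact h1 h2
        · exact he h2

/-- intersecting families have a common point -/
theorem helly (hr : 0 < r) (S : Finset (E r)) (hS : S.Nonempty)
    (h : ∀ e ∈ S, ∀ f ∈ S, ¬ (Gr r).Adj e f) : ∃ x, S ⊆ star x := by
  have hc : ∀ e ∈ S, ∀ f ∈ S, ∃ x, inc e x = true ∧ inc f x = true := by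
    intro e he f hf
    by_cases hef : e = f
    · subst hef
      rcases e with _ | i | k | ⟨i, j⟩ | ⟨i, j, k⟩
      · exact ⟨X.u ⟨0, hr⟩, by simp [inc]⟩
      · exact ⟨X.u i, by simp [inc]⟩
      · exact ⟨X.p k, by simp [inc]⟩
      · exact ⟨X.u i, by simp [inc]⟩
      · exact ⟨X.z i j, by simp [inc]⟩
    · by_contra hcon
      push Not at hcon
      exact h e he f hf ⟨hef, fun x hx => by simpa [hx.2] using hcon x hx.1⟩
  -- points of the different types of sets
  have hpu : ∀ i y, inc (E.pu i : E r) y = true → y = X.u i := by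
    rintro i (i' | k' | ⟨i', j'⟩) <;> simp [inc, eq_comm]
  have hpp : ∀ k y, inc (E.pp k : E r) y = true → y = X.p k := by
    rintro i (i' | k' | ⟨i', j'⟩) <;> simp [inc, eq_comm]
  have hzu : ∀ i j y, inc (E.zu i j : E r) y = true → y = X.u i ∨ y = X.z i j :=
    fun i j y => (inc_zu i j y).1
  have hzp : ∀ i j k y, inc (E.zp i j k : E r) y = true → y = X.p (att j k) ∨ y = X.z i j :=
    fun i j k y => (inc_zp i j k y).1
  have hv : ∀ y, inc (E.v : E r) y = true → ∃ i, y = X.u i := by
    rintro (i' | k' | ⟨i', j'⟩) <;> simp [inc]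
  by_cases c1 : ∃ i, E.pu i ∈ S
  · obtain ⟨i, hi⟩ := c1
    refine ⟨X.u i, fun e he => mem_star.2 ?_⟩
    obtain ⟨x, h1, h2⟩ := hc _ hi e he
    rw [hpu i x h1] at h2
    exact h2
  by_cases c2 : ∃ k, E.pp k ∈ S
  · obtain ⟨k, hk⟩ := c2
    refine ⟨X.p k, fun e he => mem_star.2 ?_⟩
    obtain ⟨x, h1, h2⟩ := hc _ hk e he
    rw [hpp k x h1] at h2
    exact h2
  by_cases c3 : ∃ i j, E.zu i j ∈ S
  · obtain ⟨i, j, hij⟩ := c3
    by_cases h1 : ∀ e ∈ S, inc e (X.u i) = true
    · exact ⟨X.u i, fun e he => mem_star.2 (h1 e he)⟩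
    · push Not at h1
      obtain ⟨e, he, heu⟩ := h1
      have hez : inc e (X.z i j) = true := by
        obtain ⟨x, h1, h2⟩ := hc _ hij e he
        rcases hzu i j x h1 with rfl | rfl
        · exact absurd h2 heu
        · exact h2
      refine ⟨X.z i j, fun f hf => mem_star.2 ?_⟩
      by_contra hfz
      have hfu : inc f (X.u i) = true := by
        obtain ⟨x, h1, h2⟩ := hc _ hij f hf
        rcases hzu i j x h1 with rfl | rfl
        · exact h2
        · exact absurd h2 hfz
      obtain ⟨x, h2, h3⟩ := hc e he f hf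
      rcases e with _ | i' | k' | ⟨i', j'⟩ | ⟨i', j', k'⟩
      · simp [inc] at hez
      · simp [inc] at hez
      · simp [inc] at hez
      · simp only [inc, Bool.decide_and, Bool.and_eq_true, decide_eq_true_eq] at hez heu
        exact heu (decide_eq_true hez.1)
      · simp only [inc, Bool.decide_and, Bool.and_eq_true, decide_eq_true_eq] at hez
        obtain ⟨rfl, rfl⟩ := hez
        rcases hzp _ _ _ x h2 with rfl | rfl
        · rcases f with _ | _ | _ | _ | _ <;> simp [inc] at h3 hfu
        · exact hfz h3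
  by_cases c4 : ∃ i j k, E.zp i j k ∈ S
  · obtain ⟨i, j, k, hij⟩ := c4
    by_cases h1 : ∀ e ∈ S, inc e (X.p (att j k)) = true
    · exact ⟨X.p (att j k), fun e he => mem_star.2 (h1 e he)⟩
    · push Not at h1
      obtain ⟨e, he, heu⟩ := h1
      have hez : inc e (X.z i j) = true := by
        obtain ⟨x, h1, h2⟩ := hc _ hij e he
        rcases hzp i j k x h1 with rfl | rfl
        · exact absurd h2 heu
        · exact h2
      refine ⟨X.z i j, fun f hf => mem_star.2 ?_⟩
      by_contra hfz
      have hfu : inc f (X.p (att j k)) = true := by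
        obtain ⟨x, h1, h2⟩ := hc _ hij f hf
        rcases hzp i j k x h1 with rfl | rfl
        · exact h2
        · exact absurd h2 hfz
      obtain ⟨x, h2, h3⟩ := hc e he f hf
      rcases e with _ | i' | k' | ⟨i', j'⟩ | ⟨i', j', k'⟩
      · simp [inc] at hez
      · simp [inc] at hez
      · simp [inc] at hez
      · exact c3 ⟨i', j', he⟩
      · simp only [inc, Bool.decide_and, Bool.and_eq_true, decide_eq_true_eq] at hez heu
        obtain ⟨rfl, rfl⟩ := hez
        rcases hzp _ _ _ x h2 with rfl | rfl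
        · rcases f with _ | a | a | ⟨a, b⟩ | ⟨a, b, c⟩
          · simp [inc] at h3
          · simp [inc] at h3
          · exact c2 ⟨a, hf⟩
          · exact c3 ⟨a, b, hf⟩
          · simp only [inc, decide_eq_true_eq] at h3 hfu
            exact heu (decide_eq_true (h3.symm.trans hfu))
        · exact hfz h3
  · refine ⟨X.u ⟨0, hr⟩, fun e he => mem_star.2 ?_⟩
    rcases e with _ | i' | k' | ⟨i', j'⟩ | ⟨i', j', k'⟩
    · simp [inc]
    · exact absurd ⟨_, he⟩ c1
    · exact absurd ⟨_, he⟩ c2
    · exact absurd ⟨_, _, he⟩ c3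
    · exact absurd ⟨_, _, _, he⟩ c4

theorem eq_star (hr : 0 < r) {S : Finset (E r)} (hS : MaxStable (Gr r) S) : ∃ x, S = star x := by
  have : Nonempty (E r) := ⟨E.v⟩
  obtain ⟨x, hx⟩ := helly hr S hS.nonempty ((maxStable_iff _ _).1 hS).1
  exact ⟨x, hS.eq_of_subset (star_maxStable hr x) hx⟩

/-! ### sums over stars -/

theorem sum_star (x : X r) (g : E r → ℝ) :
    ∑ e ∈ star x, g e = ∑ e, if inc e x = true then g e else 0 := by
  rw [star, Finset.sum_filter]

theorem sum_u (i : Fin r) (g : E r → ℝ) :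
    ∑ e ∈ star (X.u i), g e = g E.v + g (E.pu i) + g (E.zu i true) + g (E.zu i false) := by
  rw [sum_star, E.sum_E]
  simp only [inc, decide_eq_true_eq, if_true, Finset.sum_ite_eq',
    Finset.mem_univ, Bool.false_eq_true, if_false, Finset.sum_const_zero, Finset.sum_add_distrib,
    add_zero, zero_add]
  ring

theorem sum_p (κ : Fin (r + 1)) (g : E r → ℝ) :
    ∑ e ∈ star (X.p κ), g e = g (E.pp κ) +
      ∑ i, (∑ k, (if att true k = κ then g (E.zp i true k) else 0) +
        ∑ k, (if att false k = κ then g (E.zp i false k) else 0)) := by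
  rw [sum_star, E.sum_E]
  simp only [inc, decide_eq_true_eq, Finset.sum_ite_eq',
    Finset.mem_univ, Bool.false_eq_true, if_false, if_true, Finset.sum_const_zero, add_zero,
    zero_add]

theorem sum_z (i : Fin r) (j : Bool) (g : E r → ℝ) :
    ∑ e ∈ star (X.z i j), g e = g (E.zu i j) + ∑ k, g (E.zp i j k) := by
  rw [sum_star, E.sum_E]
  have h : ∀ (f : Fin r → ℝ), ∑ a, (if a = i then f a else 0) = f i := by
    intro f
    rw [Finset.sum_ite_eq' univ i f]
    simp
  have h' : ∀ (f : Fin r → Fin r → ℝ), ∑ a, ∑ k, (if a = i then f a k else 0) = ∑ k, f i k := by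
    intro f
    rw [← h (fun a => ∑ k, f a k)]
    refine Finset.sum_congr rfl fun a _ => ?_
    split_ifs <;> simp
  cases j
  · simp only [inc, decide_eq_true_eq, Bool.false_eq_true, if_false, Finset.sum_const_zero,
      add_zero, zero_add, reduceCtorEq, and_false, and_true, h, h']
  · simp only [inc, decide_eq_true_eq, Bool.false_eq_true, if_false, Finset.sum_const_zero,
      add_zero, zero_add, reduceCtorEq, and_false, and_true, h, h']

end Pool.Agent.Y404.SE
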