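import Pool.Agent.Y404.SE.Wt

set_option autoImplicit false

/-! # Sets of constant weight in `G_r` and substitutions in `G_r` -/

namespace Pool.Agent.Y404.SE

open Finset

variable {r : ℕ}

theorem others_zero {ι : Type} [Fintype ι] [DecidableEq ι] (f : ι → ℤ) (h0 : ∀ i, 0 ≤ f i)
    (h1 : ∑ i, f i ≤ 1) {i : ι} (hi : f i = 1) : ∀ i', i' ≠ i → f i' = 0 := by
  intro i' hi'
  have h2 : ∑ x ∈ ({i, i'} : Finset ι), f x ≤ ∑ x, f x :=
    Finset.sum_le_sum_of_subset_of_nonneg (Finset.subset_univ _) fun x _ _ => h0 x
  rw [Finset.sum_pair hi'.symm] at h2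
  have := h0 i'
  omega

theorem all_zero {ι : Type} [Fintype ι] (f : ι → ℤ) (h0 : ∀ i, 0 ≤ f i)
    (h1 : ∑ i, f i ≤ 0) : ∀ i, f i = 0 := by
  intro i
  have h2 : f i ≤ ∑ x, f x := Finset.single_le_sum (fun x _ => h0 x) (Finset.mem_univ i)
  have := h0 i
  omega

/-- the sets of constant weight `≤ 1`, with multiplicity less than `r` at `v` -/
theorem classify (hr : 2 ≤ r) (D : Finset (E r)) (hv : E.v ∉ D) (t : ℕ) (ht : t < r) (γ : ℝ)
    (hγ : γ ≤ 1) (h : ∀ φ, IsUnit' (Gr r) φ → ∑ e ∈ D, φ e + t * φ E.v = γ) :
    (t = 0 ∧ (D = ∅ ∨ ∃ x, D = star x)) ∨ (t = 1 ∧ ∃ x, insert E.v D = star x) := by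
  have hr0 : 0 < r := by omega
  set a : Fin r → ℤ := fun i => ind D (E.pu i) with ha
  set b : Fin (r + 1) → ℤ := fun k => ind D (E.pp k) with hb
  set y : Fin r → Bool → ℤ := fun i j => ind D (E.zu i j) - ind D (E.pu i) with hy
  have hta : (t : ℤ) = ∑ i, a i := by
    have := rel_v hr0 D hv t γ h
    exact_mod_cast this
  have hzp : ∀ i j k, ind D (E.zp i j k) = b (att j k) + y i j := fun i j k =>
    rel_z hr0 D t γ h i j k
  have htot : ∑ i, a i + ∑ k, b k + ∑ i, (y i true + y i false) ≤ 1 := by
    have h1 := total (w0 r) (w0_star hr0)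
      (fun e => (ind D e : ℝ) + if e = E.v then (t : ℝ) else 0)
      (fun i => (a i : ℝ)) (fun k => (b k : ℝ)) (fun i j => (y i j : ℝ))
      (by
        rw [ind_zero.2 hv, if_pos rfl]
        have : (t : ℝ) = ∑ i, (a i : ℝ) := by exact_mod_cast hta
        rw [← this]
        push_cast
        ring)
      (fun i => by rw [if_neg (by intro h; cases h), add_zero])
      (fun k => by rw [if_neg (by intro h; cases h), add_zero])
      (fun i j => by
        rw [if_neg (by intro h; cases h), add_zero]
        simp only [ha, hy]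
        push_cast
        ring)
      (fun i j k => by
        rw [if_neg (by intro h; cases h), add_zero, hzp]
        push_cast
        ring)
    have h2 := h _ ((unit_iff hr0 _).2 ⟨w0_pos hr0, w0_star hr0⟩)
    have h3 : ∑ e, ((ind D e : ℝ) + if e = E.v then (t : ℝ) else 0) * w0 r e =
        ∑ e ∈ D, w0 r e + t * w0 r E.v := by
      rw [sum_ind D]
      simp only [add_mul, Finset.sum_add_distrib, ite_mul, zero_mul, Finset.sum_ite_eq',
        Finset.mem_univ, if_true]
    rw [h3, h2] at h1
    have h4 : ((∑ i, a i + ∑ k, b k + ∑ i, (y i true + y i false) : ℤ) : ℝ) ≤ 1 := by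
      push_cast
      linarith
    exact_mod_cast h4
  have a0 : ∀ i, 0 ≤ a i := fun i => ind_nonneg _ _
  have b0 : ∀ k, 0 ≤ b k := fun k => ind_nonneg _ _
  have b1 : ∀ k, b k ≤ 1 := fun k => ind_le _ _
  have ya : ∀ i j, -a i ≤ y i j := fun i j => by
    have := ind_nonneg D (E.zu i j)
    simp only [ha, hy]
    omega
  have yneg : ∀ i j, y i j < 0 → ∀ k, b (att j k) = 1 := fun i j h k => by
    have h1 := hzp i j k
    have h2 := ind_nonneg D (E.zp i j k)
    have h3 := b1 (att j k)
    omega
  have nC : (∀ k : Fin r, b k.castSucc = 1) → ∑ k, b k = r + b (Fin.last r) := fun h => by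
    rw [Fin.sum_univ_castSucc]
    simp [h]
  have nS : (∀ k : Fin r, b k.succ = 1) → ∑ k, b k = b 0 + r := fun h => by
    rw [Fin.sum_univ_succ]
    simp [h]
  have nA : ∀ i j, y i j < 0 → (r : ℤ) ≤ ∑ k, b k := by
    intro i j h
    have h1 := yneg i j h
    cases j
    · have := nS (fun k => by simpa [att] using h1 k)
      have := b0 0
      omega
    · have := nC (fun k => by simpa [att] using h1 k)
      have := b0 (Fin.last r)
      omega
  have nB : ∀ i, y i true < 0 → y i false < 0 → (r : ℤ) + 1 ≤ ∑ k, b k := by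
    intro i h1 h2
    have h3 := yneg i true h1
    have h4 := yneg i false h2
    have h5 := nC (fun k => by simpa [att] using h3 k)
    have h6 : b (Fin.last r) = 1 := by
      have := h4 ⟨r - 1, by omega⟩
      have h7 : att false (⟨r - 1, by omega⟩ : Fin r) = Fin.last r := by
        apply Fin.ext
        simp only [att, Bool.false_eq_true, if_false, Fin.val_succ, Fin.val_last]
        omega
      rwa [h7] at this
    omega
  have hsumneg : ∑ i, (-a i) = -(t : ℤ) := by rw [Finset.sum_neg_distrib, hta]
  have y0 : ∀ i j, 0 ≤ y i j := by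
    intro i j
    by_contra hneg
    push Not at hneg
    have h1 := nA i j hneg
    by_cases h2 : (r : ℤ) + 1 ≤ ∑ k, b k
    · have h3 : ∑ i, (-a i + -a i) ≤ ∑ i, (y i true + y i false) :=
        Finset.sum_le_sum fun i _ => add_le_add (ya i true) (ya i false)
      rw [Finset.sum_add_distrib, hsumneg] at h3
      omega
    · have h3 : ∑ i, (-a i) ≤ ∑ i, (y i true + y i false) := by
        refine Finset.sum_le_sum fun i _ => ?_
        have e1 := ya i true
        have e2 := ya i false
        have e3 := a0 i
        by_contra hc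
        exact h2 (nB i (by omega) (by omega))
      rw [hsumneg] at h3
      omega
  have hY0 : ∀ i, 0 ≤ y i true + y i false := fun i => add_nonneg (y0 i true) (y0 i false)
  have hA0 : 0 ≤ ∑ i, a i := Finset.sum_nonneg fun i _ => a0 i
  have hB0 : 0 ≤ ∑ k, b k := Finset.sum_nonneg fun i _ => b0 i
  have hYs : 0 ≤ ∑ i, (y i true + y i false) := Finset.sum_nonneg fun i _ => hY0 i
  have ha1 : ∀ i, a i ≤ 1 := fun i => ind_le _ _
  have hyd : ∀ i j, ind D (E.zu i j) = a i + y i j := fun i j => by simp only [ha, hy]; ring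
  by_cases c1 : ∃ i, a i = 1
  · obtain ⟨i, hi⟩ := c1
    right
    have h1 : 1 ≤ ∑ i, a i := by
      rw [← hi]
      exact Finset.single_le_sum (fun x _ => a0 x) (Finset.mem_univ i)
    have hz1 := others_zero a a0 (by omega) hi
    have hz2 := all_zero b b0 (by omega)
    have hz3 := all_zero _ hY0 (by omega)
    have hz4 : ∀ i j, y i j = 0 := fun i j => by
      have e0 := hz3 i
      have e1 := y0 i true
      have e2 := y0 i false
      cases j <;> omega
    refine ⟨by omega, X.u i, ?_⟩
    ext e
    rw [Finset.mem_insert, mem_star]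
    rcases e with _ | i' | k' | ⟨i', j'⟩ | ⟨i', j', k'⟩
    · simp [inc]
    · simp only [inc, decide_eq_true_eq, reduceCtorEq, false_or]
      rw [← ind_one]
      change a i' = 1 ↔ _
      constructor
      · intro h
        by_contra hne
        have := hz1 i' hne
        omega
      · rintro rfl
        exact hi
    · simp only [inc, Bool.false_eq_true, iff_false, reduceCtorEq, false_or]
      rw [← ind_zero]
      exact hz2 k'
    · simp only [inc, decide_eq_true_eq, reduceCtorEq, false_or]
      rw [← ind_one, hyd, hz4, add_zero]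
      constructor
      · intro h
        by_contra hne
        have := hz1 i' hne
        omega
      · rintro rfl
        exact hi
    · simp only [inc, Bool.false_eq_true, iff_false, reduceCtorEq, false_or]
      rw [← ind_zero, hzp, hz2, hz4, add_zero]
  · left
    have hz1 : ∀ i, a i = 0 := fun i => by
      have e1 := a0 i
      have e2 := ha1 i
      by_contra h
      exact c1 ⟨i, by omega⟩
    have hAz : ∑ i, a i = 0 := Finset.sum_eq_zero fun i _ => hz1 i
    refine ⟨by omega, ?_⟩
    by_cases c2 : ∃ k, b k = 1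
    · obtain ⟨κ, hκ⟩ := c2
      right
      have h1 : 1 ≤ ∑ k, b k := by
        rw [← hκ]
        exact Finset.single_le_sum (fun x _ => b0 x) (Finset.mem_univ κ)
      have hz2 := others_zero b b0 (by omega) hκ
      have hz3 := all_zero _ hY0 (by omega)
      have hz4 : ∀ i j, y i j = 0 := fun i j => by
        have e0 := hz3 i
        have e1 := y0 i true
        have e2 := y0 i false
        cases j <;> omega
      refine ⟨X.p κ, ?_⟩
      ext e
      rw [mem_star]
      rcases e with _ | i' | k' | ⟨i', j'⟩ | ⟨i', j', k'⟩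
      · simp only [inc, Bool.false_eq_true, iff_false]
        exact hv
      · simp only [inc, Bool.false_eq_true, iff_false]
        rw [← ind_zero]
        exact hz1 i'
      · simp only [inc, decide_eq_true_eq]
        rw [← ind_one]
        change b k' = 1 ↔ _
        constructor
        · intro h
          by_contra hne
          have := hz2 k' hne
          omega
        · rintro rfl
          exact hκ
      · simp only [inc, Bool.false_eq_true, iff_false]
        rw [← ind_zero, hyd, hz4, hz1, add_zero]
      · simp only [inc, decide_eq_true_eq]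
        rw [← ind_one, hzp, hz4, add_zero]
        constructor
        · intro h
          by_contra hne
          have := hz2 _ hne
          omega
        · intro h
          rw [h]
          exact hκ
    · have hz2 : ∀ k, b k = 0 := fun i => by
        have e1 := b0 i
        have e2 := b1 i
        by_contra h
        exact c2 ⟨i, by omega⟩
      by_cases c3 : ∃ i j, y i j ≠ 0
      · obtain ⟨i, j, hij⟩ := c3
        right
        have e1 : 1 ≤ y i true + y i false := by
          have e1 := y0 i true
          have e2 := y0 i false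
          cases j <;> omega
        have h1 : y i true + y i false ≤ ∑ i, (y i true + y i false) :=
          Finset.single_le_sum (f := fun i => y i true + y i false) (fun x _ => hY0 x)
            (Finset.mem_univ i)
        have hz3 := others_zero (fun i => y i true + y i false) hY0 (by omega)
          (i := i) (by omega)
        have hz4 : ∀ i', i' ≠ i → ∀ j, y i' j = 0 := fun i' h j => by
          have e0 := hz3 i' h
          have e1 := y0 i' true
          have e2 := y0 i' false
          cases j <;> omega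
        have hone : y i j = 1 := by
          have e2 := y0 i true
          have e3 := y0 i false
          cases j <;> omega
        have hz5 : ∀ j', j' ≠ j → y i j' = 0 := by
          intro j' hj'
          have e2 := y0 i true
          have e3 := y0 i false
          cases j <;> cases j' <;> first | exact absurd rfl hj' | omega
        refine ⟨X.z i j, ?_⟩
        have hyij : ∀ i' j', y i' j' = 1 ↔ (i' = i ∧ j' = j) := by
          intro i' j'
          constructor
          · intro h
            by_cases h6 : i' = i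
            · subst h6
              refine ⟨rfl, ?_⟩
              by_contra h7
              have := hz5 j' h7
              omega
            · have := hz4 i' h6 j'
              omega
          · rintro ⟨rfl, rfl⟩
            exact hone
        ext e
        rw [mem_star]
        rcases e with _ | i' | k' | ⟨i', j'⟩ | ⟨i', j', k'⟩
        · simp only [inc, Bool.false_eq_true, iff_false]
          exact hv
        · simp only [inc, Bool.false_eq_true, iff_false]
          rw [← ind_zero]
          exact hz1 i'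
        · simp only [inc, Bool.false_eq_true, iff_false]
          rw [← ind_zero]
          exact hz2 k'
        · simp only [inc, decide_eq_true_eq]
          rw [← ind_one, hyd, hz1, zero_add]
          exact hyij i' j'
        · simp only [inc, decide_eq_true_eq]
          rw [← ind_one, hzp, hz2, zero_add]
          exact hyij i' j'
      · left
        push Not at c3
        rw [Finset.eq_empty_iff_forall_notMem]
        intro e
        rcases e with _ | i' | k' | ⟨i', j'⟩ | ⟨i', j', k'⟩
        · exact hv
        · exact ind_zero.1 (hz1 i')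
        · exact ind_zero.1 (hz2 k')
        · rw [← ind_zero, hyd, hz1, c3, add_zero]
        · rw [← ind_zero, hzp, hz2, c3, add_zero]

/-- `G_r` is strongly equistable. -/
theorem strong_Gr (hr : 2 ≤ r) : StronglyEquistable (Gr r) := by
  intro T hT hT' γ hγ
  by_contra hcon
  push Not at hcon
  have hcon' : ∀ φ, IsUnit' (Gr r) φ → ∑ e ∈ T, φ e = γ := fun φ hφ => hcon φ hφ.1 hφ.2
  by_cases hv : E.v ∈ T
  · rcases classify hr (T.erase E.v) (Finset.notMem_erase _ _) 1 (by omega) γ hγ
      (fun φ hφ => by
        rw [← hcon' φ hφ, ← Finset.add_sum_erase _ _ hv]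
        push_cast
        ring) with ⟨h, -⟩ | ⟨-, x, hx⟩
    · omega
    · rw [Finset.insert_erase hv] at hx
      exact hT' (hx ▸ star_maxStable (by omega) x)
  · rcases classify hr T hv 0 (by omega) γ hγ
      (fun φ hφ => by
        rw [← hcon' φ hφ]
        push_cast
        ring) with ⟨-, h | ⟨x, hx⟩⟩ | ⟨h, -⟩
    · exact hT.ne_empty h
    · exact hT' (hx ▸ star_maxStable (by omega) x)
    · omega

/-- If all constant weights of sets of vertices of the strongly equistable graph `H` that are
greater than `1` are natural numbers less than `r`, then `G_r[v ← H]` is strongly equistable. -/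
theorem strong_sub_Gr (hr : 2 ≤ r) {W : Type} [Finite W] [Nonempty W] {H : SimpleGraph W}
    (hH : StronglyEquistable H)
    (hT : ∀ (T : Finset W) (t : ℝ), (∀ ψ, IsUnit' H ψ → ∑ x ∈ T, ψ x = t) → 1 < t →
      ∃ s : ℕ, s < r ∧ t = s) : StronglyEquistable (substitute (Gr r) E.v H) := by
  have : Nonempty (E r) := ⟨E.v⟩
  intro S hS hS' γ hγ
  obtain ⟨Φ, h1, h2⟩ := criterion (v := E.v) hH (fun γ => γ ≤ 1)
    (fun T a b γ c => by
      obtain ⟨φ, d1, d2, d3⟩ := strong_Gr hr T a b γ c
      exact ⟨φ, ⟨d1, d2⟩, d3⟩) (exists_unit (strong_Gr hr))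
    (fun D T t γ hv _ h1 h2 hγ => by
      by_contra hcon
      push Not at hcon
      obtain ⟨s, hs, rfl⟩ := hT T t h1 h2
      have h3 : 1 < s := by exact_mod_cast h2
      rcases classify hr D hv s hs γ hγ hcon with ⟨h, -⟩ | ⟨h, -⟩
      · omega
      · omega) S hS hS' γ hγ
  exact ⟨Φ, h1.1, h1.2, h2⟩

/-- the pendant sets -/
def pend (r : ℕ) : Finset (E r) := univ.filter fun e => (∃ i, e = E.pu i) ∨ ∃ k, e = E.pp k

theorem pend_sum (hr : 0 < r) {φ : E r → ℝ} (hφ : IsUnit' (Gr r) φ) :
    ∑ e ∈ pend r, φ e + r * φ E.v = 1 := by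
  have h1 := total φ ((unit_iff hr φ).1 hφ).2
    (fun e => (ind (pend r) e : ℝ) + if e = E.v then (r : ℝ) else 0)
    (fun _ => 1) (fun _ => 1) (fun _ _ => -1)
    (by simp [ind, pend]) (fun i => by simp [ind, pend]) (fun k => by simp [ind, pend])
    (fun i j => by simp [ind, pend]) (fun i j k => by simp [ind, pend])
  have h3 : ∑ e, ((ind (pend r) e : ℝ) + if e = E.v then (r : ℝ) else 0) * φ e =
      ∑ e ∈ pend r, φ e + r * φ E.v := by
    rw [sum_ind (pend r)]
    simp only [add_mul, Finset.sum_add_distrib, ite_mul, zero_mul, Finset.sum_ite_eq',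
      Finset.mem_univ, if_true]
  rw [h3] at h1
  rw [h1]
  simp only [Finset.sum_const, Finset.card_univ, Fintype.card_fin, nsmul_eq_mul]
  push_cast
  ring

/-- If a set of vertices of `H` has weight `r` in all unit weightings, then a set of vertices of
`G_r[v ← H]` which is not a maximal stable set has weight `1` in all unit weightings. -/
theorem bad_set (hr : 2 ≤ r) {W : Type} [Finite W] [Nonempty W] {H : SimpleGraph W}
    (T : Finset W) (hT : ∀ ψ, IsUnit' H ψ → ∑ x ∈ T, ψ x = r) :
    ∃ S, S.Nonempty ∧ ¬ MaxStable (substitute (Gr r) E.v H) S ∧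
      ∀ Φ, IsUnit' (substitute (Gr r) E.v H) Φ → ∑ x ∈ S, Φ x = 1 := by
  have hvp : E.v ∉ pend r := by simp [pend]
  have h4 : Sum.inl ⟨E.pu ⟨0, by omega⟩, by intro h; cases h⟩ ∈ mk E.v (pend r) T :=
    mem_mk_inl.2 (by simp [pend])
  refine ⟨mk E.v (pend r) T, ⟨_, h4⟩, ?_, ?_⟩
  · intro h
    have h3 := ((maxStable_iff _ _).1 h).1
    have h5 : Sum.inl ⟨E.pu ⟨1, by omega⟩, by intro h; cases h⟩ ∈ mk E.v (pend r) T :=
      mem_mk_inl.2 (by simp [pend])
    refine h3 _ h4 _ h5 ?_
    change (Gr r).Adj (E.pu ⟨0, _⟩) (E.pu ⟨1, _⟩)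
    refine ⟨?_, ?_⟩
    · intro h
      injection h with h
      have := congrArg Fin.val h
      simp at this
    · rintro (i | k | ⟨i, j⟩) <;> simp only [inc, decide_eq_true_eq, Bool.false_eq_true,
        false_and, not_false_eq_true]
      rintro ⟨h6, h7⟩
      have := congrArg Fin.val (h6.trans h7.symm)
      simp at this
  · intro Φ hΦ
    obtain ⟨φ, ψ, a1, a2, rfl⟩ := decompose hΦ
    rw [sum_comp, lft_mk hvp, toRight_mk, hT ψ a2]
    have := pend_sum (by omega) a1
    linarith

/-- If a set of vertices of `H` has weight `r` in all unit weightings, then `G_r[v ← H]` is neither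
equistable nor strongly equistable. -/
theorem not_equistable (hr : 2 ≤ r) {W : Type} [Finite W] [Nonempty W] {H : SimpleGraph W}
    (T : Finset W) (hT : ∀ ψ, IsUnit' H ψ → ∑ x ∈ T, ψ x = r) :
    ¬ Equistable (substitute (Gr r) E.v H) ∧ ¬ StronglyEquistable (substitute (Gr r) E.v H) := by
  obtain ⟨S, h1, h2, h3⟩ := bad_set hr T hT
  constructor
  · rintro ⟨Φ, a1, a2⟩
    exact h2 ((a2 S).2 (h3 Φ ⟨a1, fun S hS => (a2 S).1 hS⟩))
  · intro hG
    obtain ⟨Φ, a1, a2, a3⟩ := hG S h1 h2 1 le_rfl
    exact a3 (h3 Φ ⟨a1, a2⟩)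

/-! ### complete graphs -/

theorem top_maxStable {s : ℕ} (S : Finset (Fin s)) (hs : 0 < s) :
    MaxStable (⊤ : SimpleGraph (Fin s)) S ↔ ∃ i, S = {i} := by
  rw [maxStable_iff]
  constructor
  · rintro ⟨h1, h2⟩
    have hne : S.Nonempty := by
      by_contra h
      rw [Finset.not_nonempty_iff_eq_empty] at h
      obtain ⟨y, hy, _⟩ := h2 ⟨0, hs⟩ (by simp [h])
      simp [h] at hy
    obtain ⟨i, hi⟩ := hne
    refine ⟨i, ?_⟩
    ext j
    rw [Finset.mem_singleton]
    constructor
    · intro hj
      by_contra hne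
      exact h1 i hi j hj (by rw [SimpleGraph.top_adj]; exact fun h => hne h.symm)
    · rintro rfl
      exact hi
  · rintro ⟨i, rfl⟩
    refine ⟨?_, ?_⟩
    · intro x hx y hy
      rw [Finset.mem_singleton] at hx hy
      subst hx; subst hy
      exact SimpleGraph.irrefl _
    · intro x hx
      exact ⟨i, Finset.mem_singleton_self i, by
        rw [SimpleGraph.top_adj]
        exact fun h => hx (by simp [h])⟩

theorem top_unit {s : ℕ} (hs : 0 < s) {ψ : Fin s → ℝ} (hψ : IsUnit' (⊤ : SimpleGraph (Fin s)) ψ) :
    ∀ i, ψ i = 1 := by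
  intro i
  have := hψ.2 {i} ((top_maxStable _ hs).2 ⟨i, rfl⟩)
  simpa using this

theorem top_strong {s : ℕ} (hs : 0 < s) : StronglyEquistable (⊤ : SimpleGraph (Fin s)) := by
  intro T hT hT' γ hγ
  refine ⟨fun _ => 1, fun _ => one_pos, fun S hS => ?_, ?_⟩
  · obtain ⟨i, rfl⟩ := (top_maxStable _ hs).1 hS
    simp
  · have h1 : T.card ≠ 1 := fun h => by
      rw [Finset.card_eq_one] at h
      exact hT' ((top_maxStable _ hs).2 h)
    have h2 : 0 < T.card := Finset.card_pos.2 hT
    have h3 : 2 ≤ T.card := by omega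
    have h4 : (2 : ℝ) ≤ T.card := by exact_mod_cast h3
    simp only [Finset.sum_const, nsmul_eq_mul, mul_one]
    intro h
    linarith

/-- the threshold for complete graphs -/
theorem threshold (hr : 2 ≤ r) (s : ℕ) :
    (1 ≤ s → s < r → StronglyEquistable (substitute (Gr r) E.v (⊤ : SimpleGraph (Fin s)))) ∧
      (r ≤ s → ¬ Equistable (substitute (Gr r) E.v (⊤ : SimpleGraph (Fin s))) ∧
        ¬ StronglyEquistable (substitute (Gr r) E.v (⊤ : SimpleGraph (Fin s)))) := by
  constructor
  · intro h1 h2
    have : Nonempty (Fin s) := ⟨⟨0, h1⟩⟩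
    refine strong_sub_Gr hr (top_strong h1) ?_
    intro T t h3 h4
    refine ⟨T.card, ?_, ?_⟩
    · have := Finset.card_le_univ T
      rw [Fintype.card_fin] at this
      omega
    · obtain ⟨ψ, hψ⟩ := exists_unit (top_strong h1)
      rw [← h3 ψ hψ, Finset.sum_congr rfl fun i _ => top_unit h1 hψ i]
      simp
  · intro h1
    have hs : 0 < s := by omega
    have : Nonempty (Fin s) := ⟨⟨0, hs⟩⟩
    obtain ⟨T, -, hT⟩ := Finset.exists_subset_card_eq (s := (Finset.univ : Finset (Fin s)))
      (n := r) (by rw [Finset.card_univ, Fintype.card_fin]; exact h1)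
    refine not_equistable hr T fun ψ hψ => ?_
    rw [Finset.sum_congr rfl fun i _ => top_unit hs hψ i]
    simp [hT]

/-! ### general partition graphs -/

/-- `H` is a general partition graph: there are a set `U` and nonempty subsets `f x` such that two
different vertices are adjacent if and only if their sets meet, and the sets of the vertices of each
maximal stable set form a partition of `U`. -/
def GeneralPartition {W : Type} (H : SimpleGraph W) : Prop :=
  ∃ (U : Type) (f : W → Set U), (∀ x, (f x).Nonempty) ∧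
    (∀ x y, x ≠ y → (H.Adj x y ↔ (f x ∩ f y).Nonempty)) ∧
    ∀ S : Finset W, MaxStable H S → ∀ u : U, ∃! x, x ∈ S ∧ u ∈ f x

open scoped Classical in
/-- In a general partition graph a constant weight is the number of sets containing a point. -/
theorem gp_const {W U : Type} [Fintype W] [Nonempty W] {H : SimpleGraph W} (f : W → Set U)
    (hne : ∀ x, (f x).Nonempty)
    (hp : ∀ S : Finset W, MaxStable H S → ∀ u : U, ∃! x, x ∈ S ∧ u ∈ f x) (T : Finset W) (t : ℝ)
    (ht : ∀ ψ, IsUnit' H ψ → ∑ x ∈ T, ψ x = t) (u : U) :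
    t = ((T.filter fun x => u ∈ f x).card : ℝ) := by
  choose g hg using hne
  have hn : (0 : ℝ) < Fintype.card W := by exact_mod_cast Fintype.card_pos
  set n : ℝ := ((Fintype.card W : ℕ) : ℝ) with hnd
  -- the weighting from one point and all points `g x`
  have hcount : ∀ (S : Finset W), MaxStable H S → ∀ w : U, (∑ x ∈ S, if w ∈ f x then (1 : ℝ) else 0)
      = 1 := by
    intro S hS w
    obtain ⟨x, ⟨h1, h2⟩, h3⟩ := hp S hS w
    rw [Finset.sum_eq_single x]
    · rw [if_pos h2]
    · intro y hy hyx
      rw [if_neg]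
      exact fun h => hyx (h3 y ⟨hy, h⟩)
    · exact fun h => absurd h1 h
  set μ : W → ℝ := fun x => (∑ z, if g z ∈ f x then (1 : ℝ) else 0) / n with hμ
  have hμ0 : ∀ x, 0 < μ x := by
    intro x
    refine div_pos ?_ hn
    refine Finset.sum_pos' (fun z _ => by split_ifs <;> norm_num) ⟨x, Finset.mem_univ x, ?_⟩
    rw [if_pos (hg x)]
    exact one_pos
  have hμ1 : ∀ S, MaxStable H S → ∑ x ∈ S, μ x = 1 := by
    intro S hS
    rw [hμ, ← Finset.sum_div, Finset.sum_comm, Finset.sum_congr rfl fun z _ => hcount S hS (g z)]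
    simp only [Finset.sum_const, Finset.card_univ, nsmul_eq_mul, mul_one]
    exact div_self hn.ne'
  have hun : ∀ c : ℝ, 0 ≤ c → c < 1 →
      IsUnit' H (fun x => c * (if u ∈ f x then (1 : ℝ) else 0) + (1 - c) * μ x) := by
    intro c hc hc1
    refine ⟨fun x => ?_, fun S hS => ?_⟩
    · have h1 : 0 ≤ c * (if u ∈ f x then (1 : ℝ) else 0) := by
        apply mul_nonneg hc
        split_ifs <;> norm_num
      have h2 : 0 < (1 - c) * μ x := mul_pos (by linarith) (hμ0 x)
      linarith
    · rw [Finset.sum_add_distrib, ← Finset.mul_sum, ← Finset.mul_sum, hcount S hS, hμ1 S hS]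
      ring
  have e0 := ht _ (hun 0 le_rfl zero_lt_one)
  have e1 := ht _ (hun (1 / 2) (by norm_num) (by norm_num))
  rw [Finset.sum_add_distrib, ← Finset.mul_sum, ← Finset.mul_sum] at e0 e1
  have e2 : ∑ x ∈ T, (if u ∈ f x then (1 : ℝ) else 0) =
      ((T.filter fun x => u ∈ f x).card : ℝ) := by
    simp
  rw [e2] at e0 e1
  linarith

/-- If the general partition graph `H` has a nonempty set of vertices of constant weight which is
not a maximal stable set, then for some natural `r ≥ 2` the constant weight is `r`. -/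
theorem gp_rigid {W : Type} [Finite W] [Nonempty W] {H : SimpleGraph W}
    (hH : GeneralPartition H) (T : Finset W) (hT : T.Nonempty) (hT' : ¬ MaxStable H T) (γ : ℝ)
    (h : ∀ ψ, IsUnit' H ψ → ∑ x ∈ T, ψ x = γ) : ∃ r : ℕ, 2 ≤ r ∧ γ = r := by
  classical
  have := Fintype.ofFinite W
  obtain ⟨U, f, h1, h2, h3⟩ := hH
  have key := fun u => gp_const f h1 h3 T γ h u
  obtain ⟨x₀, hx₀⟩ := hT
  obtain ⟨u₀, hu₀⟩ := h1 x₀
  refine ⟨(T.filter fun x => u₀ ∈ f x).card, ?_, key u₀⟩
  by_contra hlt
  push Not at hlt
  have hpos : 0 < (T.filter fun x => u₀ ∈ f x).card :=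
    Finset.card_pos.2 ⟨x₀, Finset.mem_filter.2 ⟨hx₀, hu₀⟩⟩
  have hone : (T.filter fun x => u₀ ∈ f x).card = 1 := by omega
  have hall : ∀ u, (T.filter fun x => u ∈ f x).card = 1 := by
    intro u
    have e1 := key u
    have e2 := key u₀
    rw [hone] at e2
    rw [e2] at e1
    exact_mod_cast e1.symm
  apply hT'
  rw [maxStable_iff]
  constructor
  · intro x hx y hy hxy
    obtain ⟨u, hu1, hu2⟩ := (h2 x y hxy.ne).1 hxy
    obtain ⟨z, hz⟩ := Finset.card_eq_one.1 (hall u)
    have e1 : x ∈ T.filter fun x => u ∈ f x := Finset.mem_filter.2 ⟨hx, hu1⟩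
    have e2 : y ∈ T.filter fun x => u ∈ f x := Finset.mem_filter.2 ⟨hy, hu2⟩
    rw [hz, Finset.mem_singleton] at e1 e2
    exact hxy.ne (e1.trans e2.symm)
  · intro x hx
    obtain ⟨u, hu⟩ := h1 x
    obtain ⟨z, hz⟩ := Finset.card_eq_one.1 (hall u)
    have e1 : z ∈ T.filter fun x => u ∈ f x := by rw [hz]; exact Finset.mem_singleton_self z
    rw [Finset.mem_filter] at e1
    refine ⟨z, e1.1, (h2 x z ?_).2 ⟨u, hu, e1.2⟩⟩
    rintro rfl
    exact hx e1.1

/-- general partition graphs are strongly equistable (Mahadev, Peled, Sun) -/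
theorem gp_strong {W : Type} [Finite W] [Nonempty W] {H : SimpleGraph W}
    (hH : GeneralPartition H) : StronglyEquistable H := by
  intro T hT hT' γ hγ
  by_contra hcon
  push Not at hcon
  obtain ⟨r, hr, h⟩ := gp_rigid hH T hT hT' γ (fun ψ hψ => hcon ψ hψ.1 hψ.2)
  have : (2 : ℝ) ≤ r := by exact_mod_cast hr
  linarith

/-- A general partition graph that is not fully equistable destroys equistability. -/
theorem gp_destroys {W : Type} [Finite W] [Nonempty W] {H : SimpleGraph W}
    (hH : GeneralPartition H) (hF : ¬ FullyEquistable H) :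
    ∃ (V : Type) (_ : Fintype V) (G : SimpleGraph V) (v : V), StronglyEquistable G ∧
      ¬ Equistable (substitute G v H) ∧ ¬ StronglyEquistable (substitute G v H) := by
  unfold FullyEquistable at hF
  push Not at hF
  obtain ⟨T, hT, hT', γ, hγ⟩ := hF
  obtain ⟨r, hr, h⟩ := gp_rigid hH T hT hT' γ (fun ψ hψ => hγ ψ hψ.1 hψ.2)
  exact ⟨E r, inferInstance, Gr r, E.v, strong_Gr hr,
    not_equistable hr T fun ψ hψ => (hγ ψ hψ.1 hψ.2).trans h⟩

end Pool.Agent.Y404.SE
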