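import Mathlib

set_option autoImplicit false

/-! # Unit weightings of graphs and substitution

A unit weighting of a graph is a positive weighting of the vertices that gives total weight `1` to
every maximal stable set. We determine the maximal stable sets and the unit weightings of
`G[v ← H]`. -/

namespace Pool.Agent.Y404.SE

/-- `S` is a maximal stable set of `G`: its vertices are pairwise non-adjacent and no other stable
set properly contains it. -/
def MaxStable {V : Type} (G : SimpleGraph V) (S : Finset V) : Prop :=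
  Maximal (fun S : Finset V => G.IsIndepSet (S : Set V)) S

/-- `G` is equistable: some positive vertex weighting gives total weight `1` to exactly the maximal
stable sets. -/
def Equistable {V : Type} (G : SimpleGraph V) : Prop :=
  ∃ φ : V → ℝ, (∀ x, 0 < φ x) ∧ ∀ S : Finset V, MaxStable G S ↔ ∑ x ∈ S, φ x = 1

/-- `G` is strongly equistable: for each nonempty set `T` of vertices that is not a maximal stable
set and each real `γ ≤ 1`, some positive vertex weighting gives total weight `1` to each maximal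
stable set and a total weight different from `γ` to `T`. -/
def StronglyEquistable {V : Type} (G : SimpleGraph V) : Prop :=
  ∀ T : Finset V, T.Nonempty → ¬ MaxStable G T → ∀ γ : ℝ, γ ≤ 1 →
    ∃ φ : V → ℝ, (∀ x, 0 < φ x) ∧ (∀ S : Finset V, MaxStable G S → ∑ x ∈ S, φ x = 1) ∧
      ∑ x ∈ T, φ x ≠ γ

/-- The condition in the definition of strongly equistable graphs for all real `γ`. -/
def FullyEquistable {V : Type} (G : SimpleGraph V) : Prop :=
  ∀ T : Finset V, T.Nonempty → ¬ MaxStable G T → ∀ γ : ℝ,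
    ∃ φ : V → ℝ, (∀ x, 0 < φ x) ∧ (∀ S : Finset V, MaxStable G S → ∑ x ∈ S, φ x = 1) ∧
      ∑ x ∈ T, φ x ≠ γ

/-- The graph `G[v ← H]`: the vertex `v` of `G` is replaced by a copy of `H`, each vertex of which
is joined to all the neighbours of `v` in `G`. -/
def substitute {V W : Type} (G : SimpleGraph V) (v : V) (H : SimpleGraph W) :
    SimpleGraph ({x : V // x ≠ v} ⊕ W) where
  Adj a b := match a, b with
    | Sum.inl x, Sum.inl y => G.Adj x y
    | Sum.inl x, Sum.inr _ => G.Adj x v
    | Sum.inr _, Sum.inl y => G.Adj y v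
    | Sum.inr a, Sum.inr b => H.Adj a b
  symm := ⟨by
    intro a b h
    rcases a with x | x <;> rcases b with y | y
    · exact G.adj_symm h
    · exact h
    · exact h
    · exact H.adj_symm h⟩
  loopless := ⟨by
    intro a h
    rcases a with x | x
    · exact G.irrefl h
    · exact H.irrefl h⟩

/-- A unit weighting. -/
def IsUnit' {V : Type} (G : SimpleGraph V) (φ : V → ℝ) : Prop :=
  (∀ x, 0 < φ x) ∧ ∀ S : Finset V, MaxStable G S → ∑ x ∈ S, φ x = 1

open Finset

variable {V W : Type}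

theorem maxStable_iff (G : SimpleGraph V) (S : Finset V) :
    MaxStable G S ↔ (∀ x ∈ S, ∀ y ∈ S, ¬ G.Adj x y) ∧ ∀ x, x ∉ S → ∃ y ∈ S, G.Adj x y := by
  classical
  constructor
  · rintro ⟨h1, h2⟩
    have h1' : ∀ x ∈ S, ∀ y ∈ S, ¬ G.Adj x y := by
      intro x hx y hy hxy
      exact h1 hx hy hxy.ne hxy
    refine ⟨h1', fun x hx => ?_⟩
    by_contra hcon
    push Not at hcon
    have h3 : G.IsIndepSet ((insert x S : Finset V) : Set V) := by
      intro a ha b hb hab hadj
      rw [Finset.mem_coe, Finset.mem_insert] at ha hb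
      rcases ha with rfl | ha
      · rcases hb with rfl | hb
        · exact hab rfl
        · exact hcon b hb hadj
      · rcases hb with rfl | hb
        · exact hcon a ha hadj.symm
        · exact h1' a ha b hb hadj
    exact hx (h2 h3 (Finset.subset_insert x S) (Finset.mem_insert_self x S))
  · rintro ⟨h1, h2⟩
    refine ⟨fun x hx y hy _ hadj => h1 x hx y hy hadj, fun T hT hST x hx => ?_⟩
    by_contra hxS
    obtain ⟨y, hy, hxy⟩ := h2 x hxS
    exact hT hx (hST hy) hxy.ne hxy

/-- every stable set is contained in a maximal one -/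
theorem exists_maxStable [Finite V] (G : SimpleGraph V) (T : Finset V)
    (hT : ∀ x ∈ T, ∀ y ∈ T, ¬ G.Adj x y) : ∃ S, T ⊆ S ∧ MaxStable G S := by
  have := Fintype.ofFinite V
  have hf : {S : Finset V | G.IsIndepSet (S : Set V)}.Finite := Set.toFinite _
  obtain ⟨S, h1, h2⟩ := hf.exists_le_maximal (a := T)
    (fun x hx y hy _ hadj => hT x hx y hy hadj)
  exact ⟨S, h1, h2⟩

theorem exists_maxStable_mem [Finite V] (G : SimpleGraph V) (v : V) :
    ∃ S, v ∈ S ∧ MaxStable G S := by
  obtain ⟨S, h1, h2⟩ := exists_maxStable G {v} (by simp)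
  exact ⟨S, h1 (by simp), h2⟩

theorem MaxStable.nonempty [Nonempty V] {G : SimpleGraph V} {S : Finset V} (h : MaxStable G S) :
    S.Nonempty := by
  by_contra h0
  rw [Finset.not_nonempty_iff_eq_empty] at h0
  obtain ⟨x⟩ := ‹Nonempty V›
  obtain ⟨y, hy, _⟩ := ((maxStable_iff G S).1 h).2 x (by simp [h0])
  simp [h0] at hy

/-- a maximal stable set is not contained in another one -/
theorem MaxStable.eq_of_subset {G : SimpleGraph V} {S S' : Finset V} (h : MaxStable G S)
    (h' : MaxStable G S') (hs : S ⊆ S') : S = S' :=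
  Finset.Subset.antisymm hs (h.2 h'.1 hs)

theorem exists_unit [Finite V] [Nonempty V] {G : SimpleGraph V} (hG : StronglyEquistable G) :
    ∃ φ, IsUnit' G φ := by
  classical
  have := Fintype.ofFinite V
  by_cases h : MaxStable G (Finset.univ : Finset V)
  · refine ⟨fun _ => 1 / (Fintype.card V : ℝ), fun _ => ?_, fun S hS => ?_⟩
    · have : 0 < Fintype.card V := Fintype.card_pos
      positivity
    · have h1 : S = Finset.univ := hS.eq_of_subset h (Finset.subset_univ _)
      have : (Fintype.card V : ℝ) ≠ 0 := by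
        have : 0 < Fintype.card V := Fintype.card_pos
        positivity
      rw [h1]
      simp [this]
  · obtain ⟨φ, h1, h2, _⟩ := hG Finset.univ Finset.univ_nonempty h 0 zero_le_one
    exact ⟨φ, h1, h2⟩

/-! ### the maximal stable sets of `G[v ← H]` -/

/-- the part of `S` in `G - v` -/
def lft (v : V) (S : Finset ({x : V // x ≠ v} ⊕ W)) : Finset V :=
  S.toLeft.map (Function.Embedding.subtype _)

theorem mem_lft {v : V} {S : Finset ({x : V // x ≠ v} ⊕ W)} {x : V} :
    x ∈ lft v S ↔ ∃ h : x ≠ v, Sum.inl ⟨x, h⟩ ∈ S := by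
  simp only [lft, Finset.mem_map, Finset.mem_toLeft, Function.Embedding.subtype_apply]
  constructor
  · rintro ⟨⟨a, ha⟩, h1, rfl⟩
    exact ⟨ha, h1⟩
  · rintro ⟨h, h1⟩
    exact ⟨⟨x, h⟩, h1, rfl⟩

theorem not_mem_lft {v : V} {S : Finset ({x : V // x ≠ v} ⊕ W)} : v ∉ lft v S := by
  rw [mem_lft]
  rintro ⟨h, _⟩
  exact h rfl

/-- the set with given parts -/
def mk (v : V) (D : Finset V) (T : Finset W) [DecidableEq V] : Finset ({x : V // x ≠ v} ⊕ W) :=
  (D.subtype (fun x => x ≠ v)).disjSum T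

theorem mem_mk_inl [DecidableEq V] {v : V} {D : Finset V} {T : Finset W} {x : {x : V // x ≠ v}} :
    Sum.inl x ∈ mk v D T ↔ x.1 ∈ D := by
  simp [mk]

theorem mem_mk_inr [DecidableEq V] {v : V} {D : Finset V} {T : Finset W} {x : W} :
    Sum.inr x ∈ mk v D T ↔ x ∈ T := by
  simp [mk]

theorem sub_maxStable [DecidableEq V] [Nonempty W] (G : SimpleGraph V) (v : V)
    (H : SimpleGraph W) (S : Finset ({x : V // x ≠ v} ⊕ W)) :
    MaxStable (substitute G v H) S ↔
      (S.toRight = ∅ ∧ MaxStable G (lft v S)) ∨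
        (MaxStable H S.toRight ∧ MaxStable G (insert v (lft v S))) := by
  classical
  constructor
  · intro h
    obtain ⟨h1, h2⟩ := (maxStable_iff _ _).1 h
    have hl : ∀ x ∈ lft v S, ∀ y ∈ lft v S, ¬ G.Adj x y := by
      intro x hx y hy
      obtain ⟨a, ha⟩ := mem_lft.1 hx
      obtain ⟨b, hb⟩ := mem_lft.1 hy
      exact h1 _ ha _ hb
    by_cases h0 : S.toRight = ∅
    · left
      refine ⟨h0, (maxStable_iff _ _).2 ⟨hl, fun x hx => ?_⟩⟩
      by_cases hxv : x = v
      · obtain ⟨w⟩ := ‹Nonempty W›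
        have hw : Sum.inr w ∉ S := fun hw => by
          have : w ∈ S.toRight := Finset.mem_toRight.2 hw
          simp [h0] at this
        obtain ⟨y, hy, hxy⟩ := h2 _ hw
        rcases y with y | y
        · refine ⟨y.1, mem_lft.2 ⟨y.2, hy⟩, ?_⟩
          rw [hxv]
          exact G.adj_symm hxy
        · have : y ∈ S.toRight := Finset.mem_toRight.2 hy
          simp [h0] at this
      · have hx' : Sum.inl ⟨x, hxv⟩ ∉ S := fun h => hx (mem_lft.2 ⟨hxv, h⟩)
        obtain ⟨y, hy, hxy⟩ := h2 _ hx'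
        rcases y with y | y
        · exact ⟨y.1, mem_lft.2 ⟨y.2, hy⟩, hxy⟩
        · have : y ∈ S.toRight := Finset.mem_toRight.2 hy
          simp [h0] at this
    · right
      obtain ⟨w, hw⟩ := Finset.nonempty_iff_ne_empty.2 h0
      have hwS : Sum.inr w ∈ S := Finset.mem_toRight.1 hw
      have hv : ∀ x ∈ lft v S, ¬ G.Adj x v := by
        intro x hx
        obtain ⟨a, ha⟩ := mem_lft.1 hx
        exact h1 _ ha _ hwS
      refine ⟨(maxStable_iff _ _).2 ⟨?_, ?_⟩, (maxStable_iff _ _).2 ⟨?_, ?_⟩⟩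
      · intro x hx y hy
        exact h1 _ (Finset.mem_toRight.1 hx) _ (Finset.mem_toRight.1 hy)
      · intro x hx
        have hx' : Sum.inr x ∉ S := fun h => hx (Finset.mem_toRight.2 h)
        obtain ⟨y, hy, hxy⟩ := h2 _ hx'
        rcases y with y | y
        · exact absurd hxy (hv y.1 (mem_lft.2 ⟨y.2, hy⟩))
        · exact ⟨y, Finset.mem_toRight.2 hy, hxy⟩
      · intro x hx y hy
        rw [Finset.mem_insert] at hx hy
        rcases hx with rfl | hx
        · rcases hy with rfl | hy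
          · exact G.irrefl
          · exact fun h => hv y hy h.symm
        · rcases hy with rfl | hy
          · exact hv x hx
          · exact hl x hx y hy
      · intro x hx
        rw [Finset.mem_insert, not_or] at hx
        have hx' : Sum.inl ⟨x, hx.1⟩ ∉ S := fun h => hx.2 (mem_lft.2 ⟨hx.1, h⟩)
        obtain ⟨y, hy, hxy⟩ := h2 _ hx'
        rcases y with y | y
        · exact ⟨y.1, Finset.mem_insert_of_mem (mem_lft.2 ⟨y.2, hy⟩), hxy⟩
        · exact ⟨v, Finset.mem_insert_self _ _, hxy⟩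
  · rintro (⟨h0, h⟩ | ⟨h, h'⟩)
    · obtain ⟨h1, h2⟩ := (maxStable_iff _ _).1 h
      have hr : ∀ w, Sum.inr w ∉ S := by
        intro w hw
        have : w ∈ S.toRight := Finset.mem_toRight.2 hw
        simp [h0] at this
      refine (maxStable_iff _ _).2 ⟨?_, ?_⟩
      · intro x hx y hy
        rcases x with x | x
        · rcases y with y | y
          · exact h1 x.1 (mem_lft.2 ⟨x.2, hx⟩) y.1 (mem_lft.2 ⟨y.2, hy⟩)
          · exact absurd hy (hr y)
        · exact absurd hx (hr x)
      · intro x hx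
        rcases x with x | x
        · have hx' : x.1 ∉ lft v S := fun h => by
            obtain ⟨a, ha⟩ := mem_lft.1 h
            exact hx ha
          obtain ⟨y, hy, hxy⟩ := h2 _ hx'
          obtain ⟨a, ha⟩ := mem_lft.1 hy
          exact ⟨_, ha, hxy⟩
        · obtain ⟨y, hy, hxy⟩ := h2 v not_mem_lft
          obtain ⟨a, ha⟩ := mem_lft.1 hy
          exact ⟨_, ha, hxy.symm⟩
    · obtain ⟨h1, h2⟩ := (maxStable_iff _ _).1 h
      obtain ⟨h3, h4⟩ := (maxStable_iff _ _).1 h'
      refine (maxStable_iff _ _).2 ⟨?_, ?_⟩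
      · intro x hx y hy
        rcases x with x | x
        · rcases y with y | y
          · exact h3 x.1 (Finset.mem_insert_of_mem (mem_lft.2 ⟨x.2, hx⟩)) y.1
              (Finset.mem_insert_of_mem (mem_lft.2 ⟨y.2, hy⟩))
          · exact h3 x.1 (Finset.mem_insert_of_mem (mem_lft.2 ⟨x.2, hx⟩)) v
              (Finset.mem_insert_self _ _)
        · rcases y with y | y
          · exact h3 y.1 (Finset.mem_insert_of_mem (mem_lft.2 ⟨y.2, hy⟩)) v
              (Finset.mem_insert_self _ _)
          · exact h1 x (Finset.mem_toRight.2 hx) y (Finset.mem_toRight.2 hy)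
      · intro x hx
        rcases x with x | x
        · have hx' : x.1 ∉ insert v (lft v S) := fun h => by
            rw [Finset.mem_insert] at h
            rcases h with h | h
            · exact x.2 h
            · obtain ⟨a, ha⟩ := mem_lft.1 h
              exact hx ha
          obtain ⟨y, hy, hxy⟩ := h4 _ hx'
          rw [Finset.mem_insert] at hy
          rcases hy with rfl | hy
          · obtain ⟨w, hw⟩ := h.nonempty
            exact ⟨_, Finset.mem_toRight.1 hw, hxy⟩
          · obtain ⟨a, ha⟩ := mem_lft.1 hy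
            exact ⟨_, ha, hxy⟩
        · have hx' : x ∉ S.toRight := fun h => hx (Finset.mem_toRight.1 h)
          obtain ⟨y, hy, hxy⟩ := h2 _ hx'
          exact ⟨_, Finset.mem_toRight.1 hy, hxy⟩

theorem sum_split {v : V} (S : Finset ({x : V // x ≠ v} ⊕ W)) (Φ : {x : V // x ≠ v} ⊕ W → ℝ) :
    ∑ x ∈ S, Φ x = ∑ x ∈ S.toLeft, Φ (Sum.inl x) + ∑ x ∈ S.toRight, Φ (Sum.inr x) := by
  conv_lhs => rw [← Finset.toLeft_disjSum_toRight (u := S)]
  rw [Finset.sum_disjSum]

/-- the weighting of `G[v ← H]` from weightings of `G` and `H` -/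
def comp (v : V) (φ : V → ℝ) (ψ : W → ℝ) : {x : V // x ≠ v} ⊕ W → ℝ :=
  Sum.elim (fun x => φ x.1) (fun y => φ v * ψ y)

theorem sum_comp {v : V} (S : Finset ({x : V // x ≠ v} ⊕ W)) (φ : V → ℝ) (ψ : W → ℝ) :
    ∑ x ∈ S, comp v φ ψ x = ∑ x ∈ lft v S, φ x + φ v * ∑ x ∈ S.toRight, ψ x := by
  rw [sum_split, Finset.mul_sum, lft, Finset.sum_map]
  rfl

theorem comp_unit [Nonempty W] {G : SimpleGraph V} {v : V} {H : SimpleGraph W} {φ : V → ℝ}
    {ψ : W → ℝ} (hφ : IsUnit' G φ) (hψ : IsUnit' H ψ) :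
    IsUnit' (substitute G v H) (comp v φ ψ) := by
  classical
  refine ⟨?_, fun S hS => ?_⟩
  · rintro (x | x)
    · exact hφ.1 _
    · exact mul_pos (hφ.1 _) (hψ.1 _)
  · rw [sum_comp]
    rcases (sub_maxStable G v H S).1 hS with ⟨h0, h⟩ | ⟨h, h'⟩
    · rw [h0, Finset.sum_empty, mul_zero, add_zero]
      exact hφ.2 _ h
    · rw [hψ.2 _ h, mul_one]
      have := hφ.2 _ h'
      rw [Finset.sum_insert not_mem_lft] at this
      linarith

theorem lft_mk [DecidableEq V] {v : V} {D : Finset V} {T : Finset W} (hv : v ∉ D) :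
    lft v (mk v D T) = D := by
  ext x
  rw [mem_lft]
  constructor
  · rintro ⟨h, h1⟩
    exact mem_mk_inl.1 h1
  · intro h
    exact ⟨fun hx => hv (hx ▸ h), mem_mk_inl.2 h⟩

theorem toRight_mk [DecidableEq V] {v : V} {D : Finset V} {T : Finset W} :
    (mk v D T).toRight = T := by
  ext x
  rw [Finset.mem_toRight]
  exact mem_mk_inr

/-- every unit weighting of `G[v ← H]` comes from unit weightings of `G` and of `H` -/
theorem decompose [Finite V] [Finite W] [Nonempty W] {G : SimpleGraph V} {v : V}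
    {H : SimpleGraph W} {Φ : {x : V // x ≠ v} ⊕ W → ℝ} (hΦ : IsUnit' (substitute G v H) Φ) :
    ∃ φ ψ, IsUnit' G φ ∧ IsUnit' H ψ ∧ Φ = comp v φ ψ := by
  classical
  obtain ⟨w⟩ := ‹Nonempty W›
  have : Nonempty W := ⟨w⟩
  obtain ⟨T₀, -, hT₀⟩ := exists_maxStable_mem H w
  obtain ⟨S₀, hvS, hS₀⟩ := exists_maxStable_mem G v
  set c : ℝ := ∑ y ∈ T₀, Φ (Sum.inr y) with hc
  have hcpos : 0 < c := Finset.sum_pos (fun y _ => hΦ.1 _) hT₀.nonempty
  have hle : ∀ T, lft v (mk v (S₀.erase v) (T : Finset W)) = S₀.erase v := fun T =>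
    lft_mk (Finset.notMem_erase v S₀)
  have key : ∀ T, MaxStable H T → ∑ y ∈ T, Φ (Sum.inr y) = c := by
    have h1 : ∀ T, MaxStable H T →
        ∑ x ∈ (mk v (S₀.erase v) ∅ : Finset ({x : V // x ≠ v} ⊕ W)).toLeft, Φ (Sum.inl x) +
          ∑ y ∈ T, Φ (Sum.inr y) = 1 := by
      intro T hT
      have h2 : MaxStable (substitute G v H) (mk v (S₀.erase v) T) := by
        rw [sub_maxStable]
        right
        rw [toRight_mk, hle, Finset.insert_erase hvS]
        exact ⟨hT, hS₀⟩
      have h3 := hΦ.2 _ h2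
      rw [sum_split, toRight_mk] at h3
      have h4 : (mk v (S₀.erase v) T).toLeft = (mk v (S₀.erase v) (∅ : Finset W)).toLeft := by
        rw [mk, mk, Finset.toLeft_disjSum, Finset.toLeft_disjSum]
      rw [h4] at h3
      exact h3
    intro T hT
    have := h1 T hT
    have := h1 T₀ hT₀
    linarith
  refine ⟨fun x => if h : x = v then c else Φ (Sum.inl ⟨x, h⟩), fun y => Φ (Sum.inr y) / c,
    ⟨fun x => ?_, fun S hS => ?_⟩, ⟨fun y => div_pos (hΦ.1 _) hcpos, fun T hT => ?_⟩, ?_⟩
  · dsimp only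
    split_ifs with h
    · exact hcpos
    · exact hΦ.1 _
  · by_cases hv : v ∈ S
    · have h2 : MaxStable (substitute G v H) (mk v (S.erase v) T₀) := by
        rw [sub_maxStable]
        right
        rw [toRight_mk, lft_mk (Finset.notMem_erase v S), Finset.insert_erase hv]
        exact ⟨hT₀, hS⟩
      have h3 := hΦ.2 _ h2
      rw [sum_split, toRight_mk] at h3
      rw [← Finset.add_sum_erase _ _ hv]
      simp only [dite_true]
      have h5 : ∑ x ∈ S.erase v, (if h : x = v then c else Φ (Sum.inl ⟨x, h⟩)) =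
          ∑ x ∈ (mk v (S.erase v) T₀).toLeft, Φ (Sum.inl x) := by
        conv_lhs => rw [← lft_mk (T := T₀) (Finset.notMem_erase v S)]
        rw [lft, Finset.sum_map]
        refine Finset.sum_congr rfl fun x _ => ?_
        simp [x.2]
      rw [h5]
      linarith
    · have h2 : MaxStable (substitute G v H) (mk v S ∅) := by
        rw [sub_maxStable]
        left
        rw [toRight_mk, lft_mk hv]
        exact ⟨rfl, hS⟩
      have h3 := hΦ.2 _ h2
      rw [sum_split, toRight_mk, Finset.sum_empty, add_zero] at h3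
      rw [← h3]
      conv_lhs => rw [← lft_mk (T := (∅ : Finset W)) hv]
      rw [lft, Finset.sum_map]
      refine Finset.sum_congr rfl fun x _ => ?_
      simp [x.2]
  · rw [← Finset.sum_div, key T hT, div_self hcpos.ne']
  · funext x
    rcases x with x | x
    · simp [comp, x.2]
    · simp only [comp, Sum.elim_inr, dite_true]
      field_simp

/-! ### when is `G[v ← H]` strongly equistable -/

/-- General criterion: `G[v ← H]` satisfies the condition for the real numbers `γ` in `Γ`. -/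
theorem criterion [Finite V] [Finite W] [Nonempty W] {G : SimpleGraph V} {v : V}
    {H : SimpleGraph W} (hH : StronglyEquistable H) (P : ℝ → Prop)
    (hG : ∀ T : Finset V, T.Nonempty → ¬ MaxStable G T → ∀ γ : ℝ, P γ →
      ∃ φ, IsUnit' G φ ∧ ∑ x ∈ T, φ x ≠ γ)
    (hu : ∃ φ, IsUnit' G φ)
    (hT : ∀ (D : Finset V) (T : Finset W) (t γ : ℝ), v ∉ D → T.Nonempty →
      (∀ ψ, IsUnit' H ψ → ∑ x ∈ T, ψ x = t) → 1 < t → P γ →
      ∃ φ, IsUnit' G φ ∧ ∑ x ∈ D, φ x + t * φ v ≠ γ) :
    ∀ S : Finset ({x : V // x ≠ v} ⊕ W), S.Nonempty → ¬ MaxStable (substitute G v H) S →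
      ∀ γ : ℝ, P γ → ∃ Φ, IsUnit' (substitute G v H) Φ ∧ ∑ x ∈ S, Φ x ≠ γ := by
  classical
  intro S hS hS' γ hγ
  by_contra hcon
  push Not at hcon
  obtain ⟨φ₀, hφ₀⟩ := hu
  obtain ⟨ψ₀, hψ₀⟩ := exists_unit hH
  set t : ℝ := ∑ x ∈ S.toRight, ψ₀ x with ht
  have hpos := hφ₀.1 v
  have h1 : ∀ ψ, IsUnit' H ψ → ∑ x ∈ S.toRight, ψ x = t := by
    intro ψ hψ
    have a1 := hcon _ (comp_unit (v := v) hφ₀ hψ)
    have a2 := hcon _ (comp_unit (v := v) hφ₀ hψ₀)
    rw [sum_comp] at a1 a2
    have : φ₀ v * (∑ x ∈ S.toRight, ψ x - t) = 0 := by rw [mul_sub]; linarith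
    rcases mul_eq_zero.1 this with h | h
    · exact absurd h hpos.ne'
    · linarith
  have h2 : ∀ φ, IsUnit' G φ → ∑ x ∈ lft v S, φ x + t * φ v = γ := by
    intro φ hφ
    have a1 := hcon _ (comp_unit (v := v) hφ hψ₀)
    rw [sum_comp] at a1
    rw [mul_comm t]
    exact a1
  by_cases h0 : S.toRight = ∅
  · have ht0 : t = 0 := by rw [ht, h0, Finset.sum_empty]
    have hne : (lft v S).Nonempty := by
      obtain ⟨x, hx⟩ := hS
      rcases x with x | x
      · exact ⟨x.1, mem_lft.2 ⟨x.2, hx⟩⟩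
      · have : x ∈ S.toRight := Finset.mem_toRight.2 hx
        simp [h0] at this
    have hm : ¬ MaxStable G (lft v S) := fun h => hS' ((sub_maxStable G v H S).2 (Or.inl ⟨h0, h⟩))
    obtain ⟨φ, a1, a2⟩ := hG _ hne hm γ hγ
    refine a2 ?_
    have := h2 φ a1
    rwa [ht0, zero_mul, add_zero] at this
  · have hne : S.toRight.Nonempty := Finset.nonempty_iff_ne_empty.2 h0
    rcases lt_or_ge 1 t with h3 | h3
    · obtain ⟨φ, a1, a2⟩ := hT (lft v S) S.toRight t γ not_mem_lft hne h1 h3 hγ
      exact a2 (h2 φ a1)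
    · have hm : MaxStable H S.toRight := by
        by_contra hm
        obtain ⟨ψ, b1, b2, b3⟩ := hH _ hne hm t h3
        exact b3 (h1 ψ ⟨b1, b2⟩)
      have ht1 : t = 1 := hψ₀.2 _ hm
      have hm' : ¬ MaxStable G (insert v (lft v S)) := fun h =>
        hS' ((sub_maxStable G v H S).2 (Or.inr ⟨hm, h⟩))
      obtain ⟨φ, a1, a2⟩ := hG _ (Finset.insert_nonempty _ _) hm' γ hγ
      refine a2 ?_
      have := h2 φ a1
      rw [Finset.sum_insert not_mem_lft]
      rw [ht1] at this
      linarith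

theorem FullyEquistable.strongly {G : SimpleGraph V} (h : FullyEquistable G) :
    StronglyEquistable G := fun T h1 h2 γ _ => h T h1 h2 γ

theorem strong_of_full [Finite V] [Finite W] [Nonempty W] {G : SimpleGraph V} (v : V)
    {H : SimpleGraph W} (hG : StronglyEquistable G) (hH : FullyEquistable H) :
    StronglyEquistable (substitute G v H) := by
  have : Nonempty V := ⟨v⟩
  intro S hS hS' γ hγ
  obtain ⟨Φ, h1, h2⟩ := criterion (v := v) hH.strongly (fun γ => γ ≤ 1)
    (fun T a b γ c => by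
      obtain ⟨φ, d1, d2, d3⟩ := hG T a b γ c
      exact ⟨φ, ⟨d1, d2⟩, d3⟩) (exists_unit hG)
    (fun D T t γ _ hT h1 h2 _ => by
      exfalso
      by_cases hm : MaxStable H T
      · obtain ⟨ψ, hψ⟩ := exists_unit hH.strongly
        have := hψ.2 T hm
        have := h1 ψ hψ
        linarith
      · obtain ⟨ψ, b1, b2, b3⟩ := hH T hT hm t
        exact b3 (h1 ψ ⟨b1, b2⟩)) S hS hS' γ hγ
  exact ⟨Φ, h1.1, h1.2, h2⟩

theorem full_of_full [Finite V] [Finite W] [Nonempty W] {G : SimpleGraph V} (v : V)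
    {H : SimpleGraph W} (hG : FullyEquistable G) (hH : FullyEquistable H) :
    FullyEquistable (substitute G v H) := by
  have : Nonempty V := ⟨v⟩
  intro S hS hS' γ
  obtain ⟨Φ, h1, h2⟩ := criterion (v := v) hH.strongly (fun _ => True)
    (fun T a b γ _ => by
      obtain ⟨φ, d1, d2, d3⟩ := hG T a b γ
      exact ⟨φ, ⟨d1, d2⟩, d3⟩) (exists_unit hG.strongly)
    (fun D T t γ _ hT h1 h2 _ => by
      exfalso
      by_cases hm : MaxStable H T
      · obtain ⟨ψ, hψ⟩ := exists_unit hH.strongly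
        have := hψ.2 T hm
        have := h1 ψ hψ
        linarith
      · obtain ⟨ψ, b1, b2, b3⟩ := hH T hT hm t
        exact b3 (h1 ψ ⟨b1, b2⟩)) S hS hS' γ trivial
  exact ⟨Φ, h1.1, h1.2, h2⟩

end Pool.Agent.Y404.SE
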