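import Pool.Agent.Y404.SE.Gr

set_option autoImplicit false

/-! # Unit weightings of `G_r` and the sets of constant weight -/

namespace Pool.Agent.Y404.SE

open Finset

variable {r : ℕ}

theorem sumC (κ : Fin (r + 1)) (f : Fin r → ℝ) :
    ∑ k : Fin r, (if k.castSucc = κ then f k else 0) =
      if h : κ.val < r then f ⟨κ.val, h⟩ else 0 := by
  split_ifs with h
  · rw [Finset.sum_eq_single (⟨κ.val, h⟩ : Fin r)]
    · rw [if_pos]
      exact Fin.ext rfl
    · intro k _ hk
      rw [if_neg]
      rintro rfl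
      exact hk (Fin.ext rfl)
    · intro h'
      exact absurd (Finset.mem_univ _) h'
  · refine Finset.sum_eq_zero fun k _ => ?_
    rw [if_neg]
    rintro rfl
    exact h k.2

theorem sumS (κ : Fin (r + 1)) (f : Fin r → ℝ) :
    ∑ k : Fin r, (if k.succ = κ then f k else 0) =
      if h : 0 < κ.val then f ⟨κ.val - 1, by have := κ.2; omega⟩ else 0 := by
  split_ifs with h
  · rw [Finset.sum_eq_single (⟨κ.val - 1, by have := κ.2; omega⟩ : Fin r)]
    · rw [if_pos]
      apply Fin.ext
      simp only [Fin.val_succ]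
      omega
    · intro k _ hk
      rw [if_neg]
      rintro rfl
      exact hk (Fin.ext (by simp))
    · intro h'
      exact absurd (Finset.mem_univ _) h'
  · refine Finset.sum_eq_zero fun k _ => ?_
    rw [if_neg]
    rintro rfl
    exact h (by simp)

/-- the heavy sets `{z, p_k}` -/
def heavy (j : Bool) (k : Fin r) : Prop := (j = true ∧ k.val = 0) ∨ (j = false ∧ k.val + 1 = r)

instance (j : Bool) (k : Fin r) : Decidable (heavy j k) := by unfold heavy; infer_instance

/-- a unit weighting of `G_r` -/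
noncomputable def w0 (r : ℕ) : E r → ℝ
  | E.v => 1 / (4 * r)
  | E.pu _ => 1 / (4 * r)
  | E.pp _ => 1 / (2 * (r + 1))
  | E.zu _ _ => (2 * r - 1) / (4 * r)
  | E.zp _ j k => (2 * r + 1) / (4 * r * (r + 1)) * (1 + if heavy j k then 1 else 0)

theorem w0_pos (hr : 0 < r) (e : E r) : 0 < w0 r e := by
  have h1 : (1 : ℝ) ≤ r := by exact_mod_cast hr
  rcases e with _ | _ | _ | _ | ⟨i, j, k⟩
  · simp only [w0]; positivity
  · simp only [w0]; positivity
  · simp only [w0]; positivity
  · simp only [w0]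
    apply div_pos <;> linarith
  · simp only [w0]
    split_ifs <;> positivity

theorem w0_star (hr : 0 < r) (x : X r) : ∑ e ∈ star x, w0 r e = 1 := by
  have h1 : (1 : ℝ) ≤ r := by exact_mod_cast hr
  have hr0 : (r : ℝ) ≠ 0 := by positivity
  rcases x with i | κ | ⟨i, j⟩
  · rw [sum_u]
    simp only [w0]
    field_simp
    ring
  · rw [sum_p]
    simp only [att, w0, if_true, Bool.false_eq_true, if_false]
    have key : ∀ i : Fin r, (∑ k : Fin r, (if k.castSucc = κ then
        (2 * (r : ℝ) + 1) / (4 * r * (r + 1)) * (1 + if heavy true k then 1 else 0) else 0) +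
        ∑ k : Fin r, (if k.succ = κ then
          (2 * (r : ℝ) + 1) / (4 * r * (r + 1)) * (1 + if heavy false k then 1 else 0) else 0)) =
        2 * ((2 * (r : ℝ) + 1) / (4 * r * (r + 1))) := by
      intro i
      rw [sumC κ (fun k => (2 * (r : ℝ) + 1) / (4 * r * (r + 1)) *
        (1 + if heavy true k then 1 else 0)), sumS κ (fun k => (2 * (r : ℝ) + 1) /
        (4 * r * (r + 1)) * (1 + if heavy false k then 1 else 0))]
      have hκ := κ.2
      by_cases a : κ.val < r
      · by_cases b : 0 < κ.val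
        · rw [dif_pos a, dif_pos b, if_neg, if_neg]
          · ring
          · simp only [heavy]
            rintro (⟨h, -⟩ | ⟨-, h⟩)
            · exact absurd h (by decide)
            · omega
          · simp only [heavy]
            rintro (⟨-, h⟩ | ⟨h, -⟩)
            · omega
            · exact absurd h (by decide)
        · rw [dif_pos a, dif_neg b, if_pos]
          · ring
          · left
            exact ⟨rfl, by simp only; omega⟩
      · rw [dif_neg a, dif_pos (by omega), if_pos]
        · ring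
        · right
          exact ⟨rfl, by simp only; omega⟩
    rw [Finset.sum_congr rfl fun i _ => key i, Finset.sum_const, Finset.card_univ,
      Fintype.card_fin, nsmul_eq_mul]
    field_simp
    ring
  · rw [sum_z]
    have h2 : ∀ j : Bool, ∑ k : Fin r, (if heavy j k then (1 : ℝ) else 0) = 1 := by
      intro j
      cases j
      · rw [Finset.sum_eq_single (⟨r - 1, by omega⟩ : Fin r)]
        · rw [if_pos]
          right
          exact ⟨rfl, by simp only; omega⟩
        · intro k _ hk
          rw [if_neg]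
          rintro (⟨h, -⟩ | ⟨-, h⟩)
          · exact absurd h (by decide)
          · exact hk (Fin.ext (by simp only; omega))
        · intro h'
          exact absurd (Finset.mem_univ _) h'
      · rw [Finset.sum_eq_single (⟨0, hr⟩ : Fin r)]
        · rw [if_pos]
          left
          exact ⟨rfl, rfl⟩
        · intro k _ hk
          rw [if_neg]
          rintro (⟨-, h⟩ | ⟨h, -⟩)
          · exact hk (Fin.ext (by simp only; omega))
          · exact absurd h (by decide)
        · intro h'
          exact absurd (Finset.mem_univ _) h'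
    simp only [w0]
    rw [← Finset.mul_sum, Finset.sum_add_distrib, h2, Finset.sum_const, Finset.card_univ,
      Fintype.card_fin, nsmul_eq_mul]
    field_simp
    ring

theorem unit_iff (hr : 0 < r) (φ : E r → ℝ) :
    IsUnit' (Gr r) φ ↔ (∀ e, 0 < φ e) ∧ ∀ x, ∑ e ∈ star x, φ e = 1 := by
  constructor
  · rintro ⟨h1, h2⟩
    exact ⟨h1, fun x => h2 _ (star_maxStable hr x)⟩
  · rintro ⟨h1, h2⟩
    refine ⟨h1, fun S hS => ?_⟩
    obtain ⟨x, rfl⟩ := eq_star hr hS
    exact h2 x

/-- perturbations -/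
theorem pert (hr : 0 < r) (D : Finset (E r)) (t γ : ℝ)
    (h : ∀ φ, IsUnit' (Gr r) φ → ∑ e ∈ D, φ e + t * φ E.v = γ) (d : E r → ℝ)
    (hd : ∀ x, ∑ e ∈ star x, d e = 0) : ∑ e ∈ D, d e + t * d E.v = 0 := by
  have : Nonempty (E r) := ⟨E.v⟩
  obtain ⟨e₀, he₀⟩ := Finite.exists_min (w0 r)
  obtain ⟨e₁, he₁⟩ := Finite.exists_max (fun e => |d e|)
  set m := w0 r e₀ with hm
  have hm0 : 0 < m := w0_pos hr e₀
  set B := |d e₁| with hB
  have hB0 : 0 ≤ B := abs_nonneg _
  set ε := m / (2 * (B + 1)) with hε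
  have hε0 : 0 < ε := by positivity
  have hεB : ε * B < m := by
    rw [hε, div_mul_eq_mul_div, div_lt_iff₀ (by positivity)]
    nlinarith
  have h1 : IsUnit' (Gr r) (fun e => w0 r e + ε * d e) := by
    rw [unit_iff hr]
    refine ⟨fun e => ?_, fun x => ?_⟩
    · have a1 : m ≤ w0 r e := he₀ e
      have a2 : |d e| ≤ B := he₁ e
      have a3 : -B ≤ d e := (abs_le.1 a2).1
      have a4 : ε * (-B) ≤ ε * d e := mul_le_mul_of_nonneg_left a3 hε0.le
      linarith
    · rw [Finset.sum_add_distrib, ← Finset.mul_sum, hd, w0_star hr]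
      ring
  have h2 : IsUnit' (Gr r) (w0 r) := (unit_iff hr _).2 ⟨w0_pos hr, w0_star hr⟩
  have b1 := h _ h1
  have b2 := h _ h2
  rw [Finset.sum_add_distrib, ← Finset.mul_sum] at b1
  have b3 : ε * (∑ e ∈ D, d e + t * d E.v) = 0 := by
    have : ε * (∑ e ∈ D, d e + t * d E.v) = (∑ e ∈ D, w0 r e + ε * ∑ e ∈ D, d e +
      t * (w0 r E.v + ε * d E.v)) - (∑ e ∈ D, w0 r e + t * w0 r E.v) := by ring
    rw [this, b1, b2, sub_self]
  rcases mul_eq_zero.1 b3 with h | h
  · exact absurd h hε0.ne'
  · exact h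

/-- the indicator -/
def ind (D : Finset (E r)) (e : E r) : ℤ := if e ∈ D then 1 else 0

theorem ind_nonneg (D : Finset (E r)) (e : E r) : 0 ≤ ind D e := by
  unfold ind; split_ifs <;> simp

theorem ind_le (D : Finset (E r)) (e : E r) : ind D e ≤ 1 := by
  unfold ind; split_ifs <;> simp

theorem ind_one {D : Finset (E r)} {e : E r} : ind D e = 1 ↔ e ∈ D := by
  unfold ind; split_ifs with h <;> simp [h]

theorem ind_zero {D : Finset (E r)} {e : E r} : ind D e = 0 ↔ e ∉ D := by
  unfold ind; split_ifs with h <;> simp [h]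

theorem sum_single' (S : Finset (E r)) (e : E r) :
    ∑ x ∈ S, (Pi.single e (1 : ℝ) : E r → ℝ) x = (ind S e : ℝ) := by
  simp only [Pi.single_apply, Finset.sum_ite_eq', ind]
  split_ifs <;> simp

theorem sum_ind (D : Finset (E r)) (φ : E r → ℝ) : ∑ e ∈ D, φ e = ∑ e, (ind D e : ℝ) * φ e := by
  unfold ind
  simp

/-- first relation -/
theorem rel_v (hr : 0 < r) (D : Finset (E r)) (hv : E.v ∉ D) (t γ : ℝ)
    (h : ∀ φ, IsUnit' (Gr r) φ → ∑ e ∈ D, φ e + t * φ E.v = γ) :
    t = ∑ i, (ind D (E.pu i) : ℝ) := by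
  have := pert hr D t γ h (fun e => (Pi.single E.v (1 : ℝ) : E r → ℝ) e -
    ∑ i, (Pi.single (E.pu i) (1 : ℝ) : E r → ℝ) e) (fun x => by
      rw [Finset.sum_sub_distrib, sum_single', Finset.sum_comm]
      simp only [sum_single']
      rcases x with i | κ | ⟨i, j⟩
      · simp [ind, mem_star, inc]
      · simp [ind, mem_star, inc]
      · simp [ind, mem_star, inc])
  rw [Finset.sum_sub_distrib, sum_single', Finset.sum_comm] at this
  simp only [sum_single', Pi.single_eq_same] at this
  rw [ind_zero.2 hv] at this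
  have h0 : ∑ i : Fin r, (Pi.single (E.pu i) (1 : ℝ) : E r → ℝ) E.v = 0 := by
    refine Finset.sum_eq_zero fun i _ => ?_
    rw [Pi.single_eq_of_ne]
    intro h
    cases h
  rw [h0] at this
  push_cast at this
  linarith

/-- second relation -/
theorem rel_z (hr : 0 < r) (D : Finset (E r)) (t γ : ℝ)
    (h : ∀ φ, IsUnit' (Gr r) φ → ∑ e ∈ D, φ e + t * φ E.v = γ) (i : Fin r) (j : Bool)
    (k : Fin r) :
    ind D (E.zp i j k) = ind D (E.pp (att j k)) + (ind D (E.zu i j) - ind D (E.pu i)) := by
  have := pert hr D t γ h (fun e => (Pi.single (E.zu i j) (1 : ℝ) : E r → ℝ) e -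
    (Pi.single (E.pu i) (1 : ℝ) : E r → ℝ) e - (Pi.single (E.zp i j k) (1 : ℝ) : E r → ℝ) e +
    (Pi.single (E.pp (att j k)) (1 : ℝ) : E r → ℝ) e) (fun x => by
      rw [Finset.sum_add_distrib, Finset.sum_sub_distrib, Finset.sum_sub_distrib]
      simp only [sum_single']
      rcases x with i' | κ | ⟨i', j'⟩
      · simp [ind, mem_star, inc]
      · simp [ind, mem_star, inc]
      · simp [ind, mem_star, inc])
  rw [Finset.sum_add_distrib, Finset.sum_sub_distrib, Finset.sum_sub_distrib] at this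
  simp only [sum_single'] at this
  have n1 : (Pi.single (E.zu i j) (1 : ℝ) : E r → ℝ) E.v = 0 :=
    Pi.single_eq_of_ne (by intro h; cases h) _
  have n2 : (Pi.single (E.pu i) (1 : ℝ) : E r → ℝ) E.v = 0 :=
    Pi.single_eq_of_ne (by intro h; cases h) _
  have n3 : (Pi.single (E.zp i j k) (1 : ℝ) : E r → ℝ) E.v = 0 :=
    Pi.single_eq_of_ne (by intro h; cases h) _
  have n4 : (Pi.single (E.pp (att j k)) (1 : ℝ) : E r → ℝ) E.v = 0 :=
    Pi.single_eq_of_ne (by intro h; cases h) _
  rw [n1, n2, n3, n4] at this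
  have h2 : (ind D (E.zp i j k) : ℝ) = (ind D (E.pp (att j k)) : ℝ) +
    ((ind D (E.zu i j) : ℝ) - (ind D (E.pu i) : ℝ)) := by linarith
  exact_mod_cast h2

/-- total weight from the coefficients -/
theorem total (φ : E r → ℝ) (hφ : ∀ x, ∑ e ∈ star x, φ e = 1) (c : E r → ℝ) (a : Fin r → ℝ)
    (b : Fin (r + 1) → ℝ) (y : Fin r → Bool → ℝ) (hv : c E.v = ∑ i, a i)
    (hpu : ∀ i, c (E.pu i) = a i) (hpp : ∀ k, c (E.pp k) = b k)
    (hzu : ∀ i j, c (E.zu i j) = a i + y i j)
    (hzp : ∀ i j k, c (E.zp i j k) = b (att j k) + y i j) :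
    ∑ e, c e * φ e = ∑ i, a i + ∑ k, b k + ∑ i, (y i true + y i false) := by
  have h1 : ∑ i, a i = ∑ i, a i * (φ E.v + φ (E.pu i) + φ (E.zu i true) + φ (E.zu i false)) := by
    refine Finset.sum_congr rfl fun i _ => ?_
    rw [← sum_u, hφ, mul_one]
  have h2 : ∑ κ, b κ = ∑ κ, b κ * φ (E.pp κ) +
      ∑ i, (∑ k, b (att true k) * φ (E.zp i true k) +
        ∑ k, b (att false k) * φ (E.zp i false k)) := by
    have e1 : ∑ κ, b κ = ∑ κ, b κ * (φ (E.pp κ) +
      ∑ i, (∑ k, (if att true k = κ then φ (E.zp i true k) else 0) +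
        ∑ k, (if att false k = κ then φ (E.zp i false k) else 0))) := by
      refine Finset.sum_congr rfl fun κ _ => ?_
      rw [← sum_p, hφ, mul_one]
    rw [e1]
    simp only [mul_add, Finset.sum_add_distrib, Finset.mul_sum]
    congr 2
    · rw [Finset.sum_comm]
      refine Finset.sum_congr rfl fun i _ => ?_
      rw [Finset.sum_comm]
      refine Finset.sum_congr rfl fun k _ => ?_
      simp [mul_ite]
    · rw [Finset.sum_comm]
      refine Finset.sum_congr rfl fun i _ => ?_
      rw [Finset.sum_comm]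
      refine Finset.sum_congr rfl fun k _ => ?_
      simp [mul_ite]
  have h3 : ∑ i, (y i true + y i false) = ∑ i, (y i true * (φ (E.zu i true) +
      ∑ k, φ (E.zp i true k)) + y i false * (φ (E.zu i false) + ∑ k, φ (E.zp i false k))) := by
    refine Finset.sum_congr rfl fun i _ => ?_
    rw [← sum_z, ← sum_z, hφ, hφ, mul_one, mul_one]
  rw [h1, h2, h3, E.sum_E, hv, Finset.sum_mul]
  simp only [hpu, hpp, hzu, hzp, add_mul, mul_add, Finset.sum_add_distrib, Finset.mul_sum]
  ring

end Pool.Agent.Y404.SE
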